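import Pool.Agent.H10.LDV.Stmts

/-!
# Row LOW of the board `ldv` (MP_05f553): the lower bound

Pairs `(a', 2 ^ l b')` with `1 ≤ a', b' ≤ A`, `a'` odd, `gcd (a', b') = 1`, `A < 8 b'`.
-/

set_option autoImplicit false

namespace Pool.LDV

open Finset Pool.Agent.H98.ABCR Pool.SHA Pool.BL

/-- the square box -/
private def Sq (A : ℕ) : Finset (ℕ × ℕ) := Ioc 0 A ×ˢ Ioc 0 A

private theorem low_sum (n : ℕ) :
    ∑ k ∈ Icc 1 n, (1 / ((2 * k + 1 : ℕ) : ℝ)) ^ 2 ≤ 1 / 4 * (1 - 1 / ((n : ℝ) + 1)) := by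
  induction n with
  | zero => simp
  | succ n ih =>
    rw [Finset.sum_Icc_succ_top (by omega)]
    have h1 : (0 : ℝ) < (n : ℝ) + 1 := by positivity
    have h2 : (0 : ℝ) < (n : ℝ) + 1 + 1 := by positivity
    have h3 : (1 / ((2 * (n + 1) + 1 : ℕ) : ℝ)) ^ 2 ≤
        1 / 4 * (1 / ((n : ℝ) + 1) - 1 / ((n : ℝ) + 1 + 1)) := by
      have e1 : 1 / 4 * (1 / ((n : ℝ) + 1) - 1 / ((n : ℝ) + 1 + 1)) =
          1 / (4 * ((n : ℝ) + 1) * ((n : ℝ) + 1 + 1)) := by
        field_simp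
        ring
      rw [e1, one_div, one_div, inv_pow]
      apply inv_anti₀ (by positivity)
      push_cast
      nlinarith
    push_cast at h3 ih ⊢
    linarith

private theorem low_cop (A : ℕ) :
    (A : ℝ) ^ 2 / 2 ≤ (((Sq A).filter (fun v => v.1.Coprime v.2)).card : ℝ) := by
  classical
  have h1 : (Sq A).card = A ^ 2 := by
    rw [Sq, card_product, Nat.card_Ioc, Nat.sub_zero]; ring
  have h2 := card_filter_add_card_filter_not (s := Sq A) (fun v : ℕ × ℕ => v.1.Coprime v.2)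
  set D : Finset ℕ := insert 2 ((Icc 1 A).image (fun k => 2 * k + 1)) with hD
  have h3 : ((Sq A).filter (fun v => ¬ v.1.Coprime v.2)) ⊆
      D.biUnion (fun d => (Ioc 0 A).filter (d ∣ ·) ×ˢ (Ioc 0 A).filter (d ∣ ·)) := by
    intro v hv
    rw [mem_filter, Sq, mem_product, mem_Ioc, mem_Ioc] at hv
    obtain ⟨⟨⟨ha0, ha⟩, hb0, hb⟩, hc⟩ := hv
    obtain ⟨p, hp, hpa, hpb⟩ := Nat.Prime.not_coprime_iff_dvd.mp hc
    rw [mem_biUnion]
    have hpA : p ≤ A := (Nat.le_of_dvd ha0 hpa).trans ha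
    refine ⟨p, ?_, ?_⟩
    · rw [hD, mem_insert]
      rcases hp.eq_two_or_odd' with h | ⟨k, hk⟩
      · exact Or.inl h
      · right
        rw [mem_image]
        have := hp.two_le
        exact ⟨k, mem_Icc.mpr ⟨by omega, by omega⟩, hk.symm⟩
    · rw [mem_product, mem_filter, mem_filter, mem_Ioc, mem_Ioc]
      exact ⟨⟨⟨ha0, ha⟩, hpa⟩, ⟨hb0, hb⟩, hpb⟩
  have h4 : (((Sq A).filter (fun v => ¬ v.1.Coprime v.2)).card : ℝ) ≤
      ∑ d ∈ D, ((A : ℝ) / d) ^ 2 := by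
    calc (((Sq A).filter (fun v => ¬ v.1.Coprime v.2)).card : ℝ)
        ≤ ((D.biUnion (fun d => (Ioc 0 A).filter (d ∣ ·) ×ˢ (Ioc 0 A).filter (d ∣ ·))).card : ℝ) := by
          exact_mod_cast card_le_card h3
      _ ≤ ((∑ d ∈ D, ((Ioc 0 A).filter (d ∣ ·) ×ˢ (Ioc 0 A).filter (d ∣ ·)).card : ℕ) : ℝ) := by
          exact_mod_cast card_biUnion_le
      _ ≤ ∑ d ∈ D, ((A : ℝ) / d) ^ 2 := by
          push_cast
          apply sum_le_sum
          intro d hd
          rw [card_product, Nat.Ioc_filter_dvd_card_eq_div]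
          push_cast
          have : ((A / d : ℕ) : ℝ) ≤ (A : ℝ) / d := Nat.cast_div_le
          have h0 : (0 : ℝ) ≤ ((A / d : ℕ) : ℝ) := Nat.cast_nonneg _
          nlinarith
  have h5 : ∑ d ∈ D, ((A : ℝ) / d) ^ 2 ≤ (A : ℝ) ^ 2 / 2 := by
    have e0 : ∀ d : ℕ, ((A : ℝ) / d) ^ 2 = (A : ℝ) ^ 2 * (1 / (d : ℝ)) ^ 2 := by
      intro d; rw [div_pow, one_div, inv_pow]; rfl
    rw [hD, sum_insert (by
      intro h; rw [mem_image] at h; obtain ⟨k, _, hk⟩ := h; omega)]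
    rw [sum_image (by intro x _ y _ h; simp only at h; omega)]
    simp only [e0]
    rw [← mul_sum]
    have h6 := low_sum A
    have h7 : (0 : ℝ) < 1 / ((A : ℝ) + 1) := by positivity
    have h8 : (0 : ℝ) ≤ (A : ℝ) ^ 2 := by positivity
    have h9 : (A : ℝ) ^ 2 * ∑ k ∈ Icc 1 A, (1 / ((2 * k + 1 : ℕ) : ℝ)) ^ 2 ≤ (A : ℝ) ^ 2 * (1 / 4) :=
      mul_le_mul_of_nonneg_left (by nlinarith) h8
    norm_num
    norm_num at h9
    linarith
  have h6 : ((((Sq A).filter (fun v => v.1.Coprime v.2)).card : ℕ) : ℝ) +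
      (((Sq A).filter (fun v => ¬ v.1.Coprime v.2)).card : ℝ) = (A : ℝ) ^ 2 := by
    rw [h1] at h2; exact_mod_cast h2
  linarith

/-- the parameter set -/
private def Pp (A : ℕ) : Finset (ℕ × ℕ) :=
  (Sq A).filter (fun v => v.1.Coprime v.2 ∧ Odd v.1 ∧ A < 8 * v.2)

private theorem low_card (A : ℕ) : (A : ℝ) ^ 2 / 8 ≤ ((Pp A).card : ℝ) := by
  classical
  have h1 := low_cop A
  set G := (Sq A).filter (fun v => v.1.Coprime v.2) with hG
  have h2 : G ⊆ G.filter (fun v => Odd v.1) ∪ G.filter (fun v => Odd v.2) := by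
    intro v hv
    rw [mem_union]
    by_cases h : Odd v.1
    · exact Or.inl (mem_filter.mpr ⟨hv, h⟩)
    · right
      refine mem_filter.mpr ⟨hv, ?_⟩
      rw [hG, mem_filter] at hv
      by_contra h'
      rw [Nat.not_odd_iff_even] at h h'
      have := Nat.dvd_gcd h.two_dvd h'.two_dvd
      rw [hv.2] at this
      omega
  have h3 : (G.filter (fun v => Odd v.2)).card ≤ (G.filter (fun v => Odd v.1)).card := by
    apply card_le_card_of_injOn Prod.swap
    · intro v hv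
      rw [mem_coe, mem_filter, hG, mem_filter, Sq, mem_product] at hv
      rw [mem_coe, mem_filter, hG, mem_filter, Sq, mem_product]
      exact ⟨⟨⟨hv.1.1.2, hv.1.1.1⟩, hv.1.2.symm⟩, hv.2⟩
    · exact fun x _ y _ h => Prod.swap_injective h
  have h4 : (G.card : ℝ) ≤ 2 * ((G.filter (fun v => Odd v.1)).card : ℝ) := by
    have := (card_le_card h2).trans (card_union_le _ _)
    have h5 : G.card ≤ 2 * (G.filter (fun v => Odd v.1)).card := by omega
    exact_mod_cast h5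
  have h5 : G.filter (fun v => Odd v.1) ⊆ Pp A ∪ (Ioc 0 A ×ˢ Ioc 0 (A / 8)) := by
    intro v hv
    rw [mem_filter, hG, mem_filter] at hv
    rw [mem_union, Pp, mem_filter]
    by_cases h : A < 8 * v.2
    · exact Or.inl ⟨hv.1.1, hv.1.2, hv.2, h⟩
    · right
      have h6 := hv.1.1
      rw [Sq, mem_product, mem_Ioc, mem_Ioc] at h6
      rw [mem_product, mem_Ioc, mem_Ioc]
      exact ⟨h6.1, h6.2.1, by omega⟩
  have h6 : ((G.filter (fun v => Odd v.1)).card : ℝ) ≤ ((Pp A).card : ℝ) + (A : ℝ) ^ 2 / 8 := by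
    have h7 := (card_le_card h5).trans (card_union_le _ _)
    rw [card_product, Nat.card_Ioc, Nat.card_Ioc] at h7
    have h8 : ((G.filter (fun v => Odd v.1)).card : ℝ) ≤
        ((Pp A).card : ℝ) + (A : ℝ) * ((A / 8 : ℕ) : ℝ) := by
      exact_mod_cast h7
    have h9 : ((A / 8 : ℕ) : ℝ) ≤ (A : ℝ) / 8 := by
      have := @Nat.cast_div_le ℝ _ _ _ A 8
      exact_mod_cast this
    have h10 : (0 : ℝ) ≤ A := Nat.cast_nonneg _
    nlinarith
  linarith

/-- LOW -/
theorem low_thm : S_LOW := by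
  classical
  intro θ hθ hθ1
  have hpos : (0 : ℝ) < 1 - θ := by linarith
  refine ⟨1 / 1088, (34 : ℝ) ^ (1 / (1 - θ)), by norm_num, ?_, ?_⟩
  · exact Real.one_le_rpow (by norm_num) (by positivity)
  intro X hX
  have hX34 : (34 : ℝ) ≤ X ^ (1 - θ) := by
    have h := Real.rpow_le_rpow (by positivity) hX hpos.le
    rwa [← Real.rpow_mul (by norm_num), one_div, inv_mul_cancel₀ hpos.ne', Real.rpow_one] at h
  have hX1 : (1 : ℝ) ≤ X := (Real.one_le_rpow (by norm_num) (by positivity)).trans hX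
  have hX0 : (0 : ℝ) < X := by linarith
  set H : ℝ := X ^ θ with hH
  have hH0 : 0 < H := Real.rpow_pos_of_pos hX0 _
  have hH1 : 1 ≤ H := Real.one_le_rpow hX1 (by linarith)
  have hXH : X ^ (1 - θ) * H = X := by
    rw [hH, ← Real.rpow_add hX0]; norm_num
  have hH3 : X ≤ H ^ 3 := by
    have e : H ^ 3 = X ^ (θ * 3) := by
      rw [hH, ← Real.rpow_natCast, ← Real.rpow_mul hX0.le]; norm_num
    rw [e]
    calc X = X ^ (1 : ℝ) := (Real.rpow_one X).symm
      _ ≤ X ^ (θ * 3) := Real.rpow_le_rpow_of_exponent_le hX1 (by linarith)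
  set y : ℝ := Real.sqrt (X ^ (1 - θ) / 34) with hy
  have hy0 : 0 ≤ X ^ (1 - θ) / 34 := by positivity
  have hy1 : 1 ≤ y := by
    rw [hy, Real.one_le_sqrt]
    rw [le_div_iff₀ (by norm_num)]; linarith
  have hyy : y ^ 2 = X ^ (1 - θ) / 34 := Real.sq_sqrt hy0
  set A : ℕ := ⌊y⌋₊ with hA
  have hAy : (A : ℝ) ≤ y := Nat.floor_le (by linarith)
  have hyA : y < (A : ℝ) + 1 := Nat.lt_floor_add_one y
  have hA1 : 1 ≤ A := Nat.le_floor (by push_cast; exact hy1)
  have hA1' : (1 : ℝ) ≤ A := by exact_mod_cast hA1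
  have hA2 : y ≤ 2 * (A : ℝ) := by linarith
  have hAA : (A : ℝ) ^ 2 * 34 ≤ X ^ (1 - θ) := by nlinarith
  have hAX : 34 * (A : ℝ) ^ 2 * H ≤ X := by
    calc 34 * (A : ℝ) ^ 2 * H = ((A : ℝ) ^ 2 * 34) * H := by ring
      _ ≤ X ^ (1 - θ) * H := mul_le_mul_of_nonneg_right hAA hH0.le
      _ = X := hXH
  have hAH : (A : ℝ) ≤ H := by
    have h1 : (A : ℝ) ^ 2 * H ≤ H ^ 3 := by nlinarith [sq_nonneg (A : ℝ), mul_nonneg (sq_nonneg (A : ℝ)) hH0.le]
    have h2 : (A : ℝ) ^ 2 ≤ H ^ 2 := by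
      by_contra hlt
      rw [not_le] at hlt
      nlinarith
    exact abs_le_of_sq_le_sq' h2 hH0.le |>.2
  obtain ⟨n, hn1, hn2⟩ := exists_nat_pow_near (x := 8 * H / A) (y := (2 : ℝ))
    (by rw [le_div_iff₀ (by linarith)]; linarith) (by norm_num)
  set l := n + 1 with hl
  have hl1 : 8 * H < (2 : ℝ) ^ l * A := by
    rw [div_lt_iff₀ (by linarith)] at hn2; exact hn2
  have hl2 : (2 : ℝ) ^ l * A ≤ 16 * H := by
    rw [le_div_iff₀ (by linarith)] at hn1
    rw [hl, pow_succ]; nlinarith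
  refine ⟨(Pp A).image (fun v => (v.1, 2 ^ l * v.2)), ?_, ?_⟩
  · intro w hw
    rw [mem_image] at hw
    obtain ⟨⟨a, b⟩, hv, rfl⟩ := hw
    rw [Pp, mem_filter, Sq, mem_product, mem_Ioc, mem_Ioc] at hv
    obtain ⟨⟨⟨ha0, ha⟩, hb0, hb⟩, hc, ho, h8⟩ := hv
    simp only at ha0 ha hb0 hb hc ho h8 ⊢
    have haR : (a : ℝ) ≤ A := by exact_mod_cast ha
    have hbR : (b : ℝ) ≤ A := by exact_mod_cast hb
    have ha0R : (0 : ℝ) < a := by exact_mod_cast ha0
    have hb0R : (0 : ℝ) < b := by exact_mod_cast hb0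
    have h8R : (A : ℝ) ≤ 8 * (b : ℝ) := by exact_mod_cast h8.le
    have h2l : (0 : ℝ) < 2 ^ l := by positivity
    refine ⟨⟨ha0, by positivity, ?_⟩, ?_, ?_⟩
    · exact Nat.Coprime.mul_right (Nat.Coprime.pow_right _ (Nat.coprime_two_right.mpr ho)) hc
    · -- the radical
      have hcR : (a : ℝ) + 2 ^ l * b ≤ 17 * H := by nlinarith
      have hm : a * (2 * b) * (a + 2 ^ l * b) ≠ 0 := by positivity
      have hle : RR (a, 2 ^ l * b) ≤ a * (2 * b) * (a + 2 ^ l * b) := by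
        have hsub : (nn (a, 2 ^ l * b)).primeFactors ⊆
            (a * (2 * b) * (a + 2 ^ l * b)).primeFactors := by
          intro p hp
          rw [Nat.mem_primeFactors] at hp ⊢
          obtain ⟨pp, hd, _⟩ := hp
          refine ⟨pp, ?_, hm⟩
          simp only [nn] at hd
          rcases (pp.dvd_mul.mp hd) with h | h
          · rcases (pp.dvd_mul.mp h) with h | h
            · exact Dvd.dvd.mul_right (Dvd.dvd.mul_right h _) _
            · rcases (pp.dvd_mul.mp h) with h | h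
              · have := pp.dvd_of_dvd_pow h
                exact Dvd.dvd.mul_right (Dvd.dvd.mul_left (Dvd.dvd.mul_right this _) _) _
              · exact Dvd.dvd.mul_right (Dvd.dvd.mul_left (Dvd.dvd.mul_left h _) _) _
          · exact Dvd.dvd.mul_left h _
        have h1 : RR (a, 2 ^ l * b) ∣ ∏ p ∈ (a * (2 * b) * (a + 2 ^ l * b)).primeFactors, p :=
          prod_dvd_prod_of_subset _ _ _ hsub
        exact Nat.le_of_dvd (Nat.pos_of_ne_zero hm) (h1.trans (Nat.prod_primeFactors_dvd _))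
      have hle' : (RR (a, 2 ^ l * b) : ℝ) ≤ (a : ℝ) * (2 * b) * (a + 2 ^ l * b) := by
        exact_mod_cast hle
      calc (RR (a, 2 ^ l * b) : ℝ) ≤ (a : ℝ) * (2 * b) * (a + 2 ^ l * b) := hle'
        _ ≤ (A : ℝ) * (2 * A) * (17 * H) := by gcongr
        _ = 34 * (A : ℝ) ^ 2 * H := by ring
        _ ≤ X := hAX
    · push_cast
      nlinarith
  · have hinj : ((Pp A).image (fun v : ℕ × ℕ => (v.1, 2 ^ l * v.2))).card = (Pp A).card := by
      apply card_image_of_injective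
      intro v w h
      simp only [Prod.mk.injEq] at h
      have h2 : v.2 = w.2 := Nat.eq_of_mul_eq_mul_left (by positivity) h.2
      exact Prod.ext h.1 h2
    rw [hinj]
    have h1 := low_card A
    have h2 : X ^ (1 - θ) / 34 ≤ 4 * (A : ℝ) ^ 2 := by
      rw [← hyy]; nlinarith
    linarith

end Pool.LDV
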